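import Pool.Agent.Helper38.TH.GoalsA
import Pool.Agent.Helper85.ND.WMT2S

/-!
# Project TH (MP_fc6b1e_nt, T100), packet T_MTG: the assembly of `MTG`
-/

set_option autoImplicit false

namespace Pool.Agent.Helper59.TH

open Finset Pool.Agent.Helper17.PP Pool.Agent.Helper17.PP0 Pool.Agent.Helper17.PP2
  Pool.Agent.Helper11.M3 Pool.Agent.Helper38.ND Pool.Agent.Helper38.TH
open Pool.Agent.Helper85.ND (T1W T2W step1W)

/-- the exponential weight -/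
theorem wf_exp : WF (fun t ↦ Real.exp (-t)) := by
  refine ⟨fun t _ ↦ (Real.exp_pos _).le, 1, fun _ ↦ 1, fun t ↦ ?_⟩
  simp

section

variable {p : ℕ} [Fact p.Prime] {B B₀ k U Λ C : Type} [Field k] [Fintype k]
    [Algebra (ZMod p) k] [AddCommGroup U] [Module k U] [Fintype U] [AddCommGroup Λ] [Module k Λ]
    [AddCommGroup C] (S : Sys p B B₀ k U Λ C)

open Classical in
/-- `step4W` with the large blocks left together -/
theorem step4G (W : Finset B → ℝ) (hW : ∀ b, 0 ≤ W b) (G : B → Prop) (E j₀ s T : ℕ)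
    (P : Finset B) (hT : j₀ ≤ T) :
    ((Fintype.card k : ℝ) - 1) * ∑ b ∈ P.powerset with (S.Fam b ∧ Ok S G j₀ b ∧
        ∃ q, S.Wt E b q ∧ j₀ ≤ S.bl q ∧ Fintype.card k - 1 ≤ S.cnt₂ E b q),
        W b ≤ ∑ j ∈ Ico j₀ s, T1W S W E P j +
      ∑ b ∈ P.powerset with (S.Fam b ∧ Ok S G T b),
        (∑ q ∈ b with (S.Wt E b q ∧ s ≤ S.bl q), (S.cnt₂ E b q : ℝ)) *
          W b := by
  have hA : ((Fintype.card k : ℝ) - 1) * ∑ b ∈ P.powerset with (S.Fam b ∧ Ok S G j₀ b ∧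
        ∃ q, S.Wt E b q ∧ j₀ ≤ S.bl q ∧ Fintype.card k - 1 ≤ S.cnt₂ E b q),
        W b ≤
      ∑ b ∈ P.powerset with S.Fam b,
        (∑ q ∈ b with ((S.Wt E b q ∧ S.bl q < s) ∧ j₀ ≤ S.bl q), (S.cnt E b q : ℝ)) *
          W b +
      ∑ b ∈ P.powerset with (S.Fam b ∧ Ok S G T b),
        (∑ q ∈ b with (S.Wt E b q ∧ s ≤ S.bl q), (S.cnt₂ E b q : ℝ)) *
          W b := by
    rw [Finset.mul_sum]
    have h1 : ∑ b ∈ P.powerset with (S.Fam b ∧ Ok S G j₀ b ∧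
        ∃ q, S.Wt E b q ∧ j₀ ≤ S.bl q ∧ Fintype.card k - 1 ≤ S.cnt₂ E b q),
        ((Fintype.card k : ℝ) - 1) * W b ≤
      ∑ b ∈ P.powerset with (S.Fam b ∧ Ok S G j₀ b ∧
        ∃ q, S.Wt E b q ∧ j₀ ≤ S.bl q ∧ Fintype.card k - 1 ≤ S.cnt₂ E b q),
        (∑ q ∈ b with ((S.Wt E b q ∧ S.bl q < s) ∧ j₀ ≤ S.bl q), (S.cnt E b q : ℝ)) *
          W b +
      ∑ b ∈ P.powerset with (S.Fam b ∧ Ok S G j₀ b ∧
        ∃ q, S.Wt E b q ∧ j₀ ≤ S.bl q ∧ Fintype.card k - 1 ≤ S.cnt₂ E b q),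
        (∑ q ∈ b with (S.Wt E b q ∧ s ≤ S.bl q), (S.cnt₂ E b q : ℝ)) *
          W b := by
      rw [← Finset.sum_add_distrib]
      refine Finset.sum_le_sum fun b hb ↦ ?_
      rw [mem_filter] at hb
      rw [← add_mul]
      exact mul_le_mul_of_nonneg_right (Pool.Agent.Helper17.PP2.step2 (Λ := Λ) S E j₀ s b hb.2.2.2)
        (hW b)
    refine h1.trans (add_le_add ?_ ?_)
    · refine Finset.sum_le_sum_of_subset_of_nonneg ?_ fun b _ _ ↦ mul_nonneg (by positivity) (hW b)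
      intro b hb
      rw [mem_filter] at hb ⊢
      exact ⟨hb.1, hb.2.1⟩
    · refine Finset.sum_le_sum_of_subset_of_nonneg ?_ fun b _ _ ↦ mul_nonneg (by positivity) (hW b)
      intro b hb
      rw [mem_filter] at hb ⊢
      exact ⟨hb.1, hb.2.1, hb.2.2.1.mono (S := S) hT⟩
  refine hA.trans (add_le_add (le_of_eq ?_) le_rfl)
  unfold T1W
  rw [Finset.sum_comm]
  refine Finset.sum_congr rfl fun b hb ↦ ?_
  rw [Finset.sum_mul]
  have h2 := S.sum_blocks (b.filter fun q ↦ S.bl q < s) (fun q ↦ S.Wt E b q) j₀ s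
    (fun q ↦ (S.cnt E b q : ℝ) * W b)
    (fun q hq ↦ (mem_filter.1 hq).2)
  rw [Finset.filter_filter] at h2
  have h3 : b.filter (fun q ↦ (S.Wt E b q ∧ S.bl q < s) ∧ j₀ ≤ S.bl q) =
      b.filter (fun q ↦ S.bl q < s ∧ S.Wt E b q ∧ j₀ ≤ S.bl q) := by
    refine Finset.filter_congr fun q _ ↦ ?_
    tauto
  rw [h3, h2]
  refine Finset.sum_congr rfl fun j hj ↦ ?_
  rw [mem_Ico] at hj
  rw [Finset.filter_filter]
  refine Finset.sum_congr ?_ fun _ _ ↦ rfl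
  refine Finset.filter_congr fun q _ ↦ ?_
  constructor
  · rintro ⟨-, h⟩
    exact h
  · intro h
    exact ⟨by omega, h⟩

end

/-- **T_MTG**. -/
theorem t_mtg : T_MTG := by
  classical
  intro hCOR hCNT hEX0' hEX2' hEX5' hEX6' hPRTB hPRTC
    p _ B B₀ k U Λ Cc _ _ _ _ _ _ _ _ _ _ _ S ψ Lk Cs M κ g K hypG V ρv K₂ hSpr hρκ T₀ r₀ hT₀
    ε hε
  have hyp₃ := hypG.toHyp₃
  have hyp : Hyp₀ S ψ g K := hyp₃.toHyp₀
  obtain ⟨K₅, hK₅⟩ := hEX2' p B B₀ k U Λ Cc S ψ g K hyp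
  have hEX0 := hEX0' p B B₀ k U Λ Cc S ψ g K hyp
  have hEX5 := hEX5' p B B₀ k U Λ Cc S ψ g K hyp
  have hEX6 := hEX6' p B B₀ k U Λ Cc S ψ g K hyp
  have hK : 1 ≤ K := hyp.one_le
  set E := 2 * K * (K + 1) with hE
  have hE1 : 1 ≤ E := by
    rw [hE]; nlinarith
  set Q : ℝ := (Fintype.card k : ℝ) with hQ
  have hQ2 : 2 ≤ Q := by
    rw [hQ]; exact_mod_cast Fintype.one_lt_card (α := k)
  have hM0 : 0 < M := hyp₃.M_pos
  have hM1 : (1 : ℝ) ≤ M := by exact_mod_cast hM0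
  have hMpos : (0 : ℝ) < M := by linarith
  set ρ : ℝ := (Fintype.card U / Fintype.card Λ : ℝ) with hρ
  have hρ0 : 0 ≤ ρ := by positivity
  set e : ℝ := ε / 7 with he
  have he0 : 0 < e := by positivity
  -- the choice of `j₀`
  obtain ⟨j5, hj5⟩ := hEX5 E e hE1 he0
  obtain ⟨j9, hj9⟩ := hCOR p B B₀ k U Λ Cc S ψ g K hyp _ wf_exp e he0
  obtain ⟨n5, hn5⟩ := exists_nat_ge (K₅ / e : ℝ)
  set j₀ := 2 + j5 + j9 + n5 with hj₀
  have hK5 : (K₅ : ℝ) / j₀ ≤ e := by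
    rw [div_le_iff₀ (by positivity)]
    rw [div_le_iff₀ he0] at hn5
    have : (n5 : ℝ) ≤ j₀ := by exact_mod_cast (by omega : n5 ≤ j₀)
    nlinarith
  -- the choice of `X₀`
  obtain ⟨X0, hX0⟩ := hEX0 j₀ e he0
  obtain ⟨X6, hX6⟩ := hEX6 E e hE1 he0
  obtain ⟨X9, hX9⟩ := hj9 j₀ (by omega)
  obtain ⟨XB, hXB⟩ := hPRTB p B B₀ k U Λ Cc S ψ Lk Cs M κ g K hypG V T₀ r₀ hT₀ e he0
  obtain ⟨XC, hXC⟩ := hPRTC p B B₀ k U Λ Cc S ψ Lk Cs M κ g K hypG V ρv K₂ hSpr hρκ e he0 j₀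
    (by omega)
  refine ⟨max (2 ^ (j₀ * j₀)) (max (max X0 X6) (max X9 (max XB XC))), fun X hX G hG P ↦ ?_⟩
  have hXp : (2 : ℝ) ^ (j₀ * j₀) ≤ X := (le_max_left _ _).trans hX
  have hXX := (le_max_right _ _).trans hX
  have hXX1 := (le_max_left _ _).trans hXX
  have hXX2 := (le_max_right _ _).trans hXX
  have hXX3 := (le_max_right _ _).trans hXX2
  have hXX0 : X0 ≤ X := (le_max_left _ _).trans hXX1
  have hXX6 : X6 ≤ X := (le_max_right _ _).trans hXX1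
  have hXX9 : X9 ≤ X := (le_max_left _ _).trans hXX2
  have hXXB : XB ≤ X := (le_max_left _ _).trans hXX3
  have hXXC : XC ≤ X := (le_max_right _ _).trans hXX3
  have hLX := le_lg hXp
  set L := lg X with hL
  set s := Nat.sqrt L with hs
  have hX1 : 1 ≤ X := le_trans (one_le_pow₀ (by norm_num)) hXp
  have hj₀s : j₀ ≤ s := by
    rw [hs, Nat.le_sqrt]; omega
  have hgX : 1 ≤ g X := hyp.g_one X
  have hXg : 0 ≤ X * g X := by positivity
  obtain ⟨T, hj₀T, hTs, hXC'⟩ := hXC X hXXC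
  set P' := P.filter fun q ↦ S.bl q ≤ th E s with hP'
  have hP'bl : ∀ q ∈ P', S.bl q ≤ th E s := fun q hq ↦ (mem_filter.1 hq).2
  -- the weight
  set W : Finset B → ℝ := fun b ↦ G b * Real.exp (-(S.nm b / X)) with hWdef
  have hW0 : ∀ b, 0 ≤ W b := fun b ↦ mul_nonneg (hG.nonneg b) (Real.exp_pos _).le
  have hWe : ∀ b, W b ≤ Real.exp (-(S.nm b / X)) := fun b ↦
    mul_le_of_le_one_left (Real.exp_pos _).le (hG.le_one b)
  have hdom : ∀ F : Finset (Finset B), ∑ b ∈ F, W b ≤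
      ∑ b ∈ F, Real.exp (-(S.nm b / X)) := fun F ↦ Finset.sum_le_sum fun b _ ↦ hWe b
  -- the exceptional sets
  have b1 := step1W (Λ := Λ) S hCNT W hW0 (fun _ ↦ True) E j₀ s P
  simp only [not_true_eq_false, false_and, and_false, exists_false, Finset.filter_false,
    Finset.sum_empty, add_zero] at b1
  have b6 := (hdom _).trans (hX6 X hXX6 P)
  have b0 := (hdom _).trans (hX0 X hXX0 P)
  have b2 := (hdom _).trans ((hK₅ j₀ X P (by omega) hX1).trans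
    (mul_le_mul_of_nonneg_right hK5 hXg))
  have b5 := (hdom _).trans (hj5 j₀ (by omega) X hX1 P)
  -- the good sets
  have b4 := step4G (Λ := Λ) S W hW0 (fun _ ↦ True) E j₀ s T P' hj₀T
  obtain ⟨hS1, -⟩ := hX9 X hXX9 P' hP'bl
  have hS1' : ∑ j ∈ Ico j₀ s, T1W S W E P' j ≤ e * (X * g X) := by
    refine le_trans (Finset.sum_le_sum fun j _ ↦ ?_) hS1
    unfold T1W T1w
    refine Finset.sum_le_sum fun b _ ↦ Finset.sum_le_sum fun q _ ↦ ?_
    exact mul_le_mul_of_nonneg_left (hWe b) (Nat.cast_nonneg _)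
  -- the sums on the right side
  set FG : ℝ := ∑ b ∈ P.powerset with S.Fam b, W b with hFG
  set Fe : ℝ := ∑ b ∈ P.powerset with S.Fam b, Real.exp (-(S.nm b / X)) with hFe
  set Fx : ℝ := ∑ b ∈ P.powerset with (S.Fam b ∧ ExX S V T₀ r₀ L b), Real.exp (-(S.nm b / X))
    with hFx
  have hsubP : P'.powerset ⊆ P.powerset := powerset_mono.2 (filter_subset _ _)
  have hFG' : ∑ b ∈ P'.powerset with S.Fam b, W b ≤ FG :=
    Finset.sum_le_sum_of_subset_of_nonneg (filter_subset_filter _ hsubP) fun b _ _ ↦ hW0 b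
  have hFe' : ∑ b ∈ P'.powerset with S.Fam b, Real.exp (-(S.nm b / X)) ≤ Fe :=
    Finset.sum_le_sum_of_subset_of_nonneg (filter_subset_filter _ hsubP)
      fun b _ _ ↦ (Real.exp_pos _).le
  have hFx' : ∑ b ∈ P'.powerset with (S.Fam b ∧ ExX S V T₀ r₀ L b),
      Real.exp (-(S.nm b / X)) ≤ Fx :=
    Finset.sum_le_sum_of_subset_of_nonneg (filter_subset_filter _ hsubP)
      fun b _ _ ↦ (Real.exp_pos _).le
  -- primes in `V`
  have hB := hXB X hXXB P' hP'bl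
  -- primes not in `V`
  have hC := hXC' G hG P' hP'bl
  have hsplit : ∑ b ∈ P'.powerset with (S.Fam b ∧ Ok S (fun _ ↦ True) T b),
      (∑ q ∈ b with (S.Wt E b q ∧ s ≤ S.bl q), (S.cnt₂ E b q : ℝ)) * W b ≤
      (ρ * (Q * ((1 / Q) ^ r₀ * Fe + Fx)) + e * (X * g X)) +
        (ρ * (Q / M * FG) + e * (X * g X)) := by
    have h1 : ∀ b : Finset B, (∑ q ∈ b with (S.Wt E b q ∧ s ≤ S.bl q), (S.cnt₂ E b q : ℝ)) =
        ∑ q ∈ b with (S.Wt E b q ∧ s ≤ S.bl q ∧ V q), (S.cnt₂ E b q : ℝ) +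
        ∑ q ∈ b with (S.Wt E b q ∧ s ≤ S.bl q ∧ ¬ V q), (S.cnt₂ E b q : ℝ) := by
      intro b
      rw [← Finset.sum_filter_add_sum_filter_not (b.filter fun q ↦ S.Wt E b q ∧ s ≤ S.bl q) V,
        Finset.filter_filter, Finset.filter_filter]
      simp only [and_assoc]
    have h2 : ∑ b ∈ P'.powerset with (S.Fam b ∧ Ok S (fun _ ↦ True) T b),
        (∑ q ∈ b with (S.Wt E b q ∧ s ≤ S.bl q), (S.cnt₂ E b q : ℝ)) * W b =
        ∑ b ∈ P'.powerset with (S.Fam b ∧ Ok S (fun _ ↦ True) T b),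
          (∑ q ∈ b with (S.Wt E b q ∧ s ≤ S.bl q ∧ V q), (S.cnt₂ E b q : ℝ)) * W b +
        ∑ b ∈ P'.powerset with (S.Fam b ∧ Ok S (fun _ ↦ True) T b),
          (∑ q ∈ b with (S.Wt E b q ∧ s ≤ S.bl q ∧ ¬ V q), (S.cnt₂ E b q : ℝ)) * W b := by
      rw [← Finset.sum_add_distrib]
      refine Finset.sum_congr rfl fun b _ ↦ ?_
      rw [h1 b, add_mul]
    rw [h2]
    refine add_le_add ?_ ?_
    · have h3 : ∑ b ∈ P'.powerset with (S.Fam b ∧ Ok S (fun _ ↦ True) T b),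
          (∑ q ∈ b with (S.Wt E b q ∧ s ≤ S.bl q ∧ V q), (S.cnt₂ E b q : ℝ)) * W b ≤
          ∑ b ∈ P'.powerset with S.Fam b,
          (∑ q ∈ b with (S.Wt E b q ∧ s ≤ S.bl q ∧ V q), (S.cnt E b q : ℝ)) *
            Real.exp (-(S.nm b / X)) := by
        refine le_trans (Finset.sum_le_sum fun b _ ↦ ?_)
          (Finset.sum_le_sum_of_subset_of_nonneg ?_ fun b _ _ ↦
            mul_nonneg (Finset.sum_nonneg fun q _ ↦ Nat.cast_nonneg _) (Real.exp_pos _).le)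
        · refine mul_le_mul (Finset.sum_le_sum fun q _ ↦ ?_) (hWe b) (hW0 b)
            (Finset.sum_nonneg fun q _ ↦ Nat.cast_nonneg _)
          exact_mod_cast S.cnt₂_le E b q
        · intro b hb
          rw [mem_filter] at hb ⊢
          exact ⟨hb.1, hb.2.1⟩
      refine h3.trans (hB.trans ?_)
      have hQ0 : (0 : ℝ) ≤ (1 / Q) ^ r₀ := by positivity
      have h4 : (1 / Q) ^ r₀ * ∑ b ∈ P'.powerset with S.Fam b, Real.exp (-(S.nm b / X)) +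
          ∑ b ∈ P'.powerset with (S.Fam b ∧ ExX S V T₀ r₀ L b), Real.exp (-(S.nm b / X)) ≤
          (1 / Q) ^ r₀ * Fe + Fx :=
        add_le_add (mul_le_mul_of_nonneg_left hFe' hQ0) hFx'
      refine add_le_add (mul_le_mul_of_nonneg_left (mul_le_mul_of_nonneg_left h4 (by linarith))
        hρ0) le_rfl
    · refine hC.trans ?_
      refine add_le_add (mul_le_mul_of_nonneg_left (mul_le_mul_of_nonneg_left hFG'
        (by positivity)) hρ0) le_rfl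
  -- conclusion
  set Gd : ℝ := ∑ b ∈ P'.powerset with (S.Fam b ∧ Ok S (fun _ ↦ True) j₀ b ∧
        ∃ q, S.Wt E b q ∧ j₀ ≤ S.bl q ∧ Fintype.card k - 1 ≤ S.cnt₂ E b q),
        W b with hGd
  have hQ1 : 0 < Q - 1 := by linarith
  have hgood : (Q - 1) * Gd ≤ ρ * (Q / M * FG) + ρ * (Q * ((1 / Q) ^ r₀ * Fe + Fx)) +
      3 * e * (X * g X) := by
    have h5 : (Q - 1) * Gd ≤ _ := b4
    refine h5.trans ((add_le_add hS1' hsplit).trans (le_of_eq ?_))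
    ring
  have hG2 : Gd ≤ ρ * (Q / (M * (Q - 1))) * FG + ρ * (Q / (Q - 1)) * ((1 / Q) ^ r₀ * Fe + Fx) +
      3 * e * (X * g X) := by
    have h0 : 0 ≤ 3 * e * (X * g X) := by positivity
    have h1 : Gd ≤ (ρ * (Q / M * FG) + ρ * (Q * ((1 / Q) ^ r₀ * Fe + Fx)) +
      3 * e * (X * g X)) / (Q - 1) := by
      rw [le_div_iff₀ hQ1]; linarith
    refine h1.trans ?_
    rw [add_div, add_div]
    refine add_le_add (add_le_add (le_of_eq ?_) (le_of_eq ?_)) (div_le_self h0 (by linarith))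
    · field_simp
    · field_simp
  refine b1.trans ?_
  have b1' := add_le_add (add_le_add (add_le_add (add_le_add b6 b0) b2) b5) hG2
  refine b1'.trans (le_of_eq ?_)
  rw [he]
  ring

end Pool.Agent.Helper59.TH
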