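import Pool.Agent.Helper17.TH.GoalsII

/-!
# Project TH (MP_fc6b1e_nt, T100), packet S_TEN2
-/

set_option autoImplicit false

namespace Pool.Agent.Helper59.TH

open Module TensorProduct

/-- every `p`-adic integer is a natural number modulo `p` -/
theorem exists_nat_add (p : ℕ) [Fact p.Prime] (x : ℤ_[p]) :
    ∃ (n : ℕ) (s : ℤ_[p]), x = (n : ℤ_[p]) + (p : ℤ_[p]) * s := by
  obtain ⟨n, -, hn⟩ := PadicInt.exists_mem_range (x := x)
  rw [PadicInt.maximalIdeal_eq_span_p, Ideal.mem_span_singleton] at hn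
  obtain ⟨s, hs⟩ := hn
  exact ⟨n, s, by rw [← hs]; ring⟩

theorem ten2_one (p : ℕ) [Fact p.Prime] (O : Type) [CommRing O] [Algebra ℤ_[p] O] (ι : Type)
    [Fintype ι] (b : Basis ι ℤ_[p] O) (A : Type) [AddCommGroup A] (z : O ⊗[ℤ] A) :
    ∃ (e : ι → A) (y : O ⊗[ℤ] A), z = ∑ i, b i ⊗ₜ e i + p • y := by
  induction z using TensorProduct.induction_on with
  | zero => exact ⟨0, 0, by simp⟩
  | tmul o a =>
    choose n s h using fun i => exists_nat_add p (b.repr o i)
    refine ⟨fun i => n i • a, (∑ i, s i • b i) ⊗ₜ a, ?_⟩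
    have ho : o = ∑ i, n i • b i + p • ∑ i, s i • b i := by
      conv_lhs => rw [← b.sum_repr o]
      rw [Finset.smul_sum, ← Finset.sum_add_distrib]
      refine Finset.sum_congr rfl fun i _ => ?_
      rw [h i, add_smul, mul_smul, Nat.cast_smul_eq_nsmul, Nat.cast_smul_eq_nsmul]
    conv_lhs => rw [ho]
    rw [TensorProduct.add_tmul, TensorProduct.sum_tmul]
    congr 1
    refine Finset.sum_congr rfl fun i _ => ?_
    rw [← TensorProduct.smul_tmul]
  | add z1 z2 h1 h2 =>
    obtain ⟨e1, y1, h1⟩ := h1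
    obtain ⟨e2, y2, h2⟩ := h2
    refine ⟨e1 + e2, y1 + y2, ?_⟩
    rw [h1, h2]
    simp only [Pi.add_apply, TensorProduct.tmul_add, Finset.sum_add_distrib, smul_add]
    abel

theorem ten2_two (p : ℕ) [Fact p.Prime] (O : Type) [CommRing O] [Algebra ℤ_[p] O] (ι : Type)
    [Fintype ι] (b : Basis ι ℤ_[p] O) (A : Type) [AddCommGroup A] (e : ι → A) (y : O ⊗[ℤ] A)
    (h : ∑ i, b i ⊗ₜ[ℤ] e i = p • y) (i : ι) : ∃ a, e i = p • a := by
  classical
  let S : AddSubgroup A := (nsmulAddMonoidHom p : A →+ A).range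
  letI : Module (ZMod p) (A ⧸ S) := AddCommGroup.zmodModule (by
    intro x
    induction x using QuotientAddGroup.induction_on with
    | H a =>
      rw [← QuotientAddGroup.mk_nsmul]
      exact (QuotientAddGroup.eq_zero_iff _).mpr ⟨a, rfl⟩)
  let β : O →ₗ[ℤ] A →ₗ[ℤ] (A ⧸ S) := LinearMap.mk₂ ℤ
    (fun (o : O) (a : A) => PadicInt.toZMod (b.repr o i) • (QuotientAddGroup.mk a : A ⧸ S))
    (by intro o1 o2 a; simp [add_smul])
    (by intro c o a; rw [map_zsmul, Finsupp.smul_apply, map_zsmul, smul_assoc])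
    (by intro o a1 a2; simp)
    (by intro c o a; rw [QuotientAddGroup.mk_zsmul, smul_comm])
  have h1 : TensorProduct.lift β (∑ l, b l ⊗ₜ[ℤ] e l) = (QuotientAddGroup.mk (e i) : A ⧸ S) := by
    rw [map_sum, Finset.sum_eq_single i]
    · rw [TensorProduct.lift.tmul]
      simp [β]
    · intro l _ hl
      rw [TensorProduct.lift.tmul]
      simp [β, Finsupp.single_apply, hl]
    · intro hi
      exact absurd (Finset.mem_univ i) hi
  have h2 : TensorProduct.lift β (p • y) = 0 := by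
    rw [map_nsmul]
    generalize TensorProduct.lift β y = q
    rw [← Nat.cast_smul_eq_nsmul (ZMod p), CharP.cast_eq_zero, zero_smul]
  rw [h, h2] at h1
  obtain ⟨a, ha⟩ := (QuotientAddGroup.eq_zero_iff _).mp h1.symm
  exact ⟨a, ha.symm⟩

theorem s_ten2 : Pool.Agent.Helper17.TH.S_TEN2 := by
  intro p _ O _ _ ι _ b A _
  exact ⟨ten2_one p O ι b A, fun e y h i => ten2_two p O ι b A e y h i⟩

end Pool.Agent.Helper59.TH
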